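import Mathlib
import Pool.Agent.Helper65.SL.Base

set_option maxSynthPendingDepth 3
set_option linter.unusedSectionVars false
set_option linter.deprecated false
set_option linter.unusedVariables false

namespace Pool.Agent.Helper74.SL

open Filter Topology
open scoped ContDiff Manifold
open Pool.Agent.Helper23.Ric
open Pool.Agent.Helper65.SL

variable {E₁ E₂ : Type*} [NormedAddCommGroup E₁] [NormedSpace ℝ E₁] [FiniteDimensional ℝ E₁]
  [NormedAddCommGroup E₂] [NormedSpace ℝ E₂] [FiniteDimensional ℝ E₂]
  {H₁ H₂ : Type*} [TopologicalSpace H₁] [TopologicalSpace H₂]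
  {I : ModelWithCorners ℝ E₁ H₁} {J : ModelWithCorners ℝ E₂ H₂} [I.Boundaryless] [J.Boundaryless]
  {M N : Type*} [TopologicalSpace M] [TopologicalSpace N]
  [ChartedSpace H₁ M] [IsManifold I ∞ M] [ChartedSpace H₂ N] [IsManifold J ∞ N]

theorem rat (hd : 0 < Module.finrank ℝ E₂) (g : RMetric (I.prod J) (M × N)) (h₀ : RMetric J N)
    (ρ : M → N → ℝ) (hρ : ∀ x y, sliceForm g x y = ρ x y • h₀.form.at y) :
    (∀ x y, 0 < ρ x y) ∧
    ∀ x y, ContDiffAt ℝ ∞ (fun p : E₁ × E₂ =>
      ρ ((extChartAt I x).symm p.1) ((extChartAt J y).symm p.2)) (extChartAt I x x, extChartAt J y y) := by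
  have : IsManifold I 1 M := IsManifold.of_le (n := ∞) (by norm_cast)
  have : IsManifold J 1 N := IsManifold.of_le (n := ∞) (by norm_cast)
  have : Nontrivial E₂ := Module.finrank_pos_iff.1 hd
  obtain ⟨v, hv⟩ := exists_ne (0 : E₂)
  have hslice : ∀ (x : M) (y : N) (a : E₂), g.form.at (x, y) (0, a) (0, a) =
      ρ x y * h₀.form.at y a a := by
    intro x y a
    have h1 : sliceForm g x y a a = (ρ x y • h₀.form.at y) a a := by rw [hρ]
    exact h1
  refine ⟨?_, ?_⟩
  · intro x y
    have h1 : 0 < g.form.at (x, y) ((0 : E₁), v) ((0 : E₁), v) := by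
      apply g.at_pos
      intro h0
      exact hv (Prod.mk.inj h0).2
    rw [hslice] at h1
    have h2 : 0 < h₀.form.at y v v := h₀.at_pos y hv
    exact (pos_iff_pos_of_mul_pos h1).2 h2
  · intro x y
    have hgs : ContDiffAt ℝ ∞ (inChart (I.prod J) g.form (x, y))
        (extChartAt I x x, extChartAt J y y) := by
      have := g.smooth (x, y)
      rwa [prod_self] at this
    have hhs : ContDiffAt ℝ ∞ (inChart J h₀.form y) (extChartAt J y y) := h₀.smooth y
    have hnum : ContDiffAt ℝ ∞ (fun p : E₁ × E₂ =>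
        inChart (I.prod J) g.form (x, y) p ((0 : E₁), v) ((0 : E₁), v))
        (extChartAt I x x, extChartAt J y y) :=
      (hgs.clm_apply contDiffAt_const).clm_apply contDiffAt_const
    have hden : ContDiffAt ℝ ∞ (fun p : E₁ × E₂ => inChart J h₀.form y p.2 v v)
        (extChartAt I x x, extChartAt J y y) := by
      have h1 : ContDiffAt ℝ ∞ (fun z : E₂ => inChart J h₀.form y z v v) (extChartAt J y y) :=
        (hhs.clm_apply contDiffAt_const).clm_apply contDiffAt_const
      exact ContDiffAt.comp (extChartAt I x x, extChartAt J y y) h1 contDiffAt_snd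
    have hpos : ∀ᶠ p in 𝓝 (extChartAt I x x, extChartAt J y y),
        0 < inChart J h₀.form y p.2 v v := by
      filter_upwards [target_prod_eventually (I := I) (J := J) x y] with p hp
      rw [inChart_apply]
      apply h₀.at_pos
      intro h0
      apply hv
      apply dsymm_injective hp.2
      rw [h0, map_zero]
    have hq : ContDiffAt ℝ ∞ (fun p : E₁ × E₂ =>
        inChart (I.prod J) g.form (x, y) p ((0 : E₁), v) ((0 : E₁), v) /
          inChart J h₀.form y p.2 v v) (extChartAt I x x, extChartAt J y y) :=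
      hnum.div hden hpos.self_of_nhds.ne'
    refine hq.congr_of_eventuallyEq ?_
    filter_upwards [target_prod_eventually (I := I) (J := J) x y, hpos] with p hp hp2
    rw [eq_div_iff hp2.ne', inChart_apply]
    obtain ⟨w, z⟩ := p
    rw [inChart_prod_apply g hp.1 hp.2]
    simp only [map_zero]
    exact (hslice _ _ _).symm

end Pool.Agent.Helper74.SL
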