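import Mathlib

set_option autoImplicit false

namespace Pool.Agent.Helper74.SL

open Filter Topology

theorem sfc {X N : Type*} [TopologicalSpace X] [CompactSpace X] [Nonempty X] [TopologicalSpace N]
    [CompactSpace N] (Θ P : X → N → ℝ) (hΘ : Continuous fun p : X × N => Θ p.1 p.2)
    (hP : Continuous fun p : X × N => P p.1 p.2)
    (hpos : ∀ x y, (∀ x', Θ x y ≤ Θ x' y) → 0 < P x y) :
    ∃ (n : ℕ) (x : Fin n → X) (k : ℝ), 0 < n ∧ 0 < k ∧ ∀ y,
      0 < ∑ j, (Real.exp (-k * Θ (x j) y) / ∑ i, Real.exp (-k * Θ (x i) y)) * P (x j) y := by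
  classical
  -- step 1
  obtain ⟨ε, hε, h1⟩ : ∃ ε : ℝ, 0 < ε ∧ ∀ x y, (∀ x', Θ x y ≤ Θ x' y + ε) → ε < P x y := by
    by_contra hcon
    push Not at hcon
    let K : ℕ → Set (X × N) := fun n =>
      {p | P p.1 p.2 ≤ 1 / ((n : ℝ) + 1)} ∩ ⋂ x', {p | Θ p.1 p.2 ≤ Θ x' p.2 + 1 / ((n : ℝ) + 1)}
    have hKc : ∀ n, IsClosed (K n) := by
      intro n
      refine IsClosed.inter (isClosed_le hP continuous_const) (isClosed_iInter fun x' => ?_)
      have h2 : Continuous fun p : X × N => Θ x' p.2 :=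
        hΘ.comp (continuous_const.prodMk continuous_snd)
      exact isClosed_le hΘ (h2.add continuous_const)
    have hKn : ∀ n, (K n).Nonempty := by
      intro n
      obtain ⟨x, y, h2, h3⟩ := hcon (1 / ((n : ℝ) + 1)) (by positivity)
      exact ⟨(x, y), h3, Set.mem_iInter.2 fun x' => h2 x'⟩
    have hKd : ∀ n, K (n + 1) ⊆ K n := by
      intro n p hp
      have h4 : 1 / (((n + 1 : ℕ) : ℝ) + 1) ≤ 1 / ((n : ℝ) + 1) := by
        apply one_div_le_one_div_of_le (by positivity)
        push_cast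
        linarith
      obtain ⟨h2, h3⟩ := hp
      refine ⟨le_trans h2 h4, Set.mem_iInter.2 fun x' => ?_⟩
      have := Set.mem_iInter.1 h3 x'
      simp only [Set.mem_ofPred_eq] at this ⊢
      linarith
    obtain ⟨p, hp⟩ := IsCompact.nonempty_iInter_of_sequence_nonempty_isCompact_isClosed K hKd hKn
      ((hKc 0).isCompact) hKc
    have hlim : Tendsto (fun n : ℕ => 1 / ((n : ℝ) + 1)) atTop (𝓝 0) :=
      tendsto_one_div_add_atTop_nhds_zero_nat
    have hp2 : ∀ n : ℕ, P p.1 p.2 ≤ 1 / ((n : ℝ) + 1) := fun n => (Set.mem_iInter.1 hp n).1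
    have hp3 : ∀ x' (n : ℕ), Θ p.1 p.2 ≤ Θ x' p.2 + 1 / ((n : ℝ) + 1) := fun x' n =>
      Set.mem_iInter.1 (Set.mem_iInter.1 hp n).2 x'
    have h5 : P p.1 p.2 ≤ 0 := ge_of_tendsto' hlim hp2
    have h6 : ∀ x', Θ p.1 p.2 ≤ Θ x' p.2 := by
      intro x'
      have : Tendsto (fun n : ℕ => Θ x' p.2 + 1 / ((n : ℝ) + 1)) atTop (𝓝 (Θ x' p.2 + 0)) :=
        tendsto_const_nhds.add hlim
      rw [add_zero] at this
      exact ge_of_tendsto' this (hp3 x')
    exact absurd (hpos p.1 p.2 h6) (not_lt.2 h5)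
  -- step 2
  obtain ⟨C, hC⟩ := isCompact_univ.exists_bound_of_continuousOn (hP.continuousOn (s := Set.univ))
  have hC0 : ∀ x y, -|C| ≤ P x y := by
    intro x y
    have := hC (x, y) (Set.mem_univ _)
    rw [Real.norm_eq_abs] at this
    have h2 := (abs_le.1 this).1
    have h3 := le_abs_self C
    simp only at h2
    linarith
  -- step 3
  let F : C(X, C(N, ℝ)) := ContinuousMap.curry ⟨fun p : X × N => Θ p.1 p.2, hΘ⟩
  obtain ⟨t, -, ht⟩ := isCompact_univ.elim_nhds_subcover
    (fun x : X => {x' | dist (F x') (F x) < ε / 2}) (fun x _ => by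
      have : ContinuousAt F x := F.continuous.continuousAt
      exact this (Metric.ball_mem_nhds (F x) (by positivity)))
  have ht2 : ∀ x : X, ∃ x' ∈ t, ∀ y, |Θ x y - Θ x' y| < ε / 2 := by
    intro x
    have := ht (Set.mem_univ x)
    simp only [Set.mem_iUnion, Set.mem_ofPred_eq] at this
    obtain ⟨x', hx', h2⟩ := this
    refine ⟨x', hx', fun y => ?_⟩
    have h3 := ContinuousMap.dist_apply_le_dist (f := F x) (g := F x') y
    have h4 : dist (F x y) (F x' y) = |Θ x y - Θ x' y| := by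
      rw [Real.dist_eq]
      rfl
    linarith
  obtain ⟨x₀⟩ := ‹Nonempty X›
  have hn : 0 < t.card := by
    obtain ⟨x', hx', -⟩ := ht2 x₀
    exact Finset.card_pos.2 ⟨x', hx'⟩
  set n := t.card with hndef
  let x : Fin n → X := fun j => (t.equivFin.symm j : X)
  have hx : ∀ z : X, ∃ j, ∀ y, |Θ z y - Θ (x j) y| < ε / 2 := by
    intro z
    obtain ⟨x', hx', h2⟩ := ht2 z
    refine ⟨t.equivFin ⟨x', hx'⟩, ?_⟩
    simpa [x] using h2
  have hnR : (0 : ℝ) < n := by exact_mod_cast hn
  set D : ℝ := n * (|C| + ε) with hD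
  have hDpos : 0 < D := by positivity
  set k : ℝ := (2 / ε) * (D / ε) with hk
  have hkpos : 0 < k := by positivity
  refine ⟨n, x, k, hn, hkpos, fun y => ?_⟩
  -- minimum
  obtain ⟨x₁, -, hx₁⟩ := isCompact_univ.exists_isMinOn ⟨x₀, Set.mem_univ _⟩
    ((hΘ.comp (continuous_id.prodMk continuous_const) :
      Continuous fun z : X => Θ z y).continuousOn (s := Set.univ))
  have hmin : ∀ z, Θ x₁ y ≤ Θ z y := fun z => hx₁ (Set.mem_univ z)
  set μ := Θ x₁ y with hμ
  obtain ⟨j₀, hj₀⟩ := hx x₁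
  have hj : Θ (x j₀) y ≤ μ + ε / 2 := by
    have := (abs_lt.1 (hj₀ y)).1
    linarith
  set S := ∑ i, Real.exp (-k * Θ (x i) y) with hS
  have hS1 : Real.exp (-k * (μ + ε / 2)) ≤ S := by
    have h2 : Real.exp (-k * (μ + ε / 2)) ≤ Real.exp (-k * Θ (x j₀) y) := by
      apply Real.exp_le_exp.2
      nlinarith
    refine h2.trans ?_
    exact Finset.single_le_sum (f := fun i => Real.exp (-k * Θ (x i) y))
      (fun i _ => (Real.exp_pos _).le) (Finset.mem_univ j₀)
  have hSpos : 0 < S := lt_of_lt_of_le (Real.exp_pos _) hS1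
  set q := Real.exp (-(k * (ε / 2))) with hq
  have hqpos : 0 < q := Real.exp_pos _
  have hkey : ∀ j, (Real.exp (-k * Θ (x j) y) / S) * ε - (|C| + ε) * q ≤
      (Real.exp (-k * Θ (x j) y) / S) * P (x j) y := by
    intro j
    have hw : 0 ≤ Real.exp (-k * Θ (x j) y) / S := by positivity
    have hC' := hC0 (x j) y
    have hCa := abs_nonneg C
    by_cases hg : Θ (x j) y ≤ μ + ε
    · have h2 := h1 (x j) y (fun x' => by have := hmin x'; linarith)
      have h3 := mul_le_mul_of_nonneg_left h2.le hw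
      have : 0 ≤ (|C| + ε) * q := by positivity
      linarith
    · push Not at hg
      have h2 : Real.exp (-k * Θ (x j) y) / S ≤ q := by
        rw [div_le_iff₀ hSpos]
        have h3 : Real.exp (-k * Θ (x j) y) ≤ q * Real.exp (-k * (μ + ε / 2)) := by
          rw [hq, ← Real.exp_add]
          apply Real.exp_le_exp.2
          nlinarith
        exact h3.trans (mul_le_mul_of_nonneg_left hS1 hqpos.le)
      have h3 := mul_le_mul_of_nonneg_left hC' hw
      have h4 := mul_le_mul_of_nonneg_left h2 (show 0 ≤ |C| + ε by positivity)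
      nlinarith
  have hsum := Finset.sum_le_sum (fun j (_ : j ∈ (Finset.univ : Finset (Fin n))) => hkey j)
  refine lt_of_lt_of_le ?_ hsum
  rw [Finset.sum_sub_distrib, Finset.sum_const, Finset.card_univ, Fintype.card_fin,
    ← Finset.sum_mul, ← Finset.sum_div, ← hS, div_self hSpos.ne', nsmul_eq_mul, one_mul]
  have h7 : q * (1 + D / ε) ≤ 1 := by
    have h8 : k * (ε / 2) = D / ε := by
      rw [hk]
      field_simp
    have h9 : 1 + D / ε ≤ Real.exp (D / ε) := by
      have := Real.add_one_le_exp (D / ε)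
      linarith
    calc q * (1 + D / ε) ≤ q * Real.exp (D / ε) := mul_le_mul_of_nonneg_left h9 hqpos.le
      _ = 1 := by rw [hq, h8, ← Real.exp_add]; simp
  have h10 : D * q < ε := by
    have h11 : q * (ε + D) ≤ ε := by
      have : q * (ε + D) = (q * (1 + D / ε)) * ε := by
        field_simp
      rw [this]
      nlinarith
    nlinarith
  have h12 : (n : ℝ) * ((|C| + ε) * q) = D * q := by rw [hD]; ring
  rw [h12]
  linarith

end Pool.Agent.Helper74.SL
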